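import Mathlib

/-!
# Groups of regular-action automata over perfect groups

Let `Y` be a finite perfect group with at least two elements (for example the alternating group
`A₅`).  We show that the finite state wreath power `W_Y` of the regular group `Y` contains no
subgroup which is isomorphic to the lamplighter group `Y ≀ ℤ`; in particular the automaton group
`𝔾_Y` is not isomorphic to `Y ≀ ℤ`.

Proof.  Suppose that the commuting copies `D_k = α ^ k D_0 α ^ (-k)` of `Y` act on the tree of words
and that `D_0` fixes all words of length `n`.  Let `v` be such a word.  The label at `v` is a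
homomorphism `D_0 → Y`.  Some power `α ^ k`, `k > 0`, fixes `v` and has trivial label at `v`, so that
`D_k` and `D_0` have the same labels at `v`.  As they commute, the labels of `D_0` at `v` commute, and
as `D_0` is perfect they are trivial.  Hence `D_0` fixes all words of length `n + 1`.
-/

namespace Pool.Agent.Results.MP_e17fb9_al.PerfectAlphabet

/-! ### The definitions -/

section defs

variable {Y : Type} [Group Y]

/-- The map `a_i` of the automaton `A_Y`: in the state `a_i`, on reading the letter `j`, it outputs
`i j` and moves to the state `a_{j⁻¹ i}`. -/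
def aMap : Y → List Y → List Y
  | _, [] => []
  | i, j :: w => (i * j) :: aMap (j⁻¹ * i) w

/-- The inverse of `a_i`. -/
def aInv : Y → List Y → List Y
  | _, [] => []
  | i, x :: w => (i⁻¹ * x) :: aInv (x⁻¹ * i * i) w

theorem aInv_aMap : ∀ (w : List Y) (i : Y), aInv i (aMap i w) = w
  | [], _ => rfl
  | j :: w, i => by
    have h : (i * j)⁻¹ * i * i = j⁻¹ * i := by group
    simp only [aMap, aInv, h, inv_mul_cancel_left, aInv_aMap w]

theorem aMap_aInv : ∀ (w : List Y) (i : Y), aMap i (aInv i w) = w
  | [], _ => rfl
  | x :: w, i => by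
    have h : (i⁻¹ * x)⁻¹ * i = x⁻¹ * i * i := by group
    simp only [aMap, aInv, h, mul_inv_cancel_left, aMap_aInv w]

/-- The map `a_i` as a permutation of the set of all words. -/
def a (i : Y) : Equiv.Perm (List Y) where
  toFun := aMap i
  invFun := aInv i
  left_inv w := aInv_aMap w i
  right_inv w := aMap_aInv w i

variable (Y) in
/-- The group `𝔾_Y` generated by the maps `a_i`. -/
def GY : Subgroup (Equiv.Perm (List Y)) := Subgroup.closure (Set.range (a : Y → Equiv.Perm (List Y)))

variable (Y) in
/-- A finite automaton over the alphabet `Y` whose output map at each state `q` is the left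
multiplication by an element `lab q` of `Y`. -/
structure Automaton where
  /-- the set of states -/
  Q : Type
  /-- there are finitely many states -/
  finite : Finite Q
  /-- the transition function -/
  step : Q → Y → Q
  /-- the output at the state `q` is `x ↦ lab q * x` -/
  lab : Q → Y

/-- The map on words defined at a state. -/
def Automaton.run (M : Automaton Y) : M.Q → List Y → List Y
  | _, [] => []
  | q, x :: w => (M.lab q * x) :: M.run (M.step q x) w

variable (Y) in
/-- The finite state wreath power `W_Y`. -/
def WY : Set (List Y → List Y) := {f | ∃ (M : Automaton Y) (q : M.Q), f = M.run q}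

variable (Y) in
/-- The restricted direct sum `⨁_{n ∈ ℤ} Y`: the functions `ℤ → Y` with finite support. -/
def Base : Subgroup (ℤ → Y) where
  carrier := {f | {k | f k ≠ 1}.Finite}
  one_mem' := by simp
  mul_mem' := by
    intro f g hf hg
    refine (hf.union hg).subset ?_
    intro k hk
    by_contra h
    simp only [Set.mem_union, Set.mem_ofPred_eq, not_or, not_not] at h
    exact hk (by rw [Pi.mul_apply, h.1, h.2, one_mul])
  inv_mem' := by
    intro f hf
    refine hf.subset ?_
    intro k hk h
    exact hk (by rw [Pi.inv_apply, h, inv_one])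

/-- The shift of a function by `n`. -/
def shiftFun (n : ℤ) (f : Base Y) : Base Y :=
  ⟨fun k => f.1 (k - n), by
    have h := f.2
    refine (h.image (fun k => k + n)).subset ?_
    intro k hk
    exact ⟨k - n, hk, by simp⟩⟩

variable (Y) in
/-- The action of `ℤ` on the direct sum by shifts of the coordinates. -/
def shift : Multiplicative ℤ →* MulAut (Base Y) where
  toFun n :=
    { toFun := shiftFun n.toAdd
      invFun := shiftFun (-n.toAdd)
      left_inv := by
        intro f
        apply Subtype.ext
        funext k
        simp [shiftFun]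
      right_inv := by
        intro f
        apply Subtype.ext
        funext k
        simp [shiftFun]
      map_mul' := by
        intro f g
        rfl }
  map_one' := by
    ext f
    simp [shiftFun]
  map_mul' := by
    intro m n
    ext f k
    change f.1 (k - (m.toAdd + n.toAdd)) = f.1 (k - m.toAdd - n.toAdd)
    rw [sub_sub]

variable (Y) in
/-- The lamplighter group `Y ≀ ℤ`, the restricted wreath product `(⨁_{n ∈ ℤ} Y) ⋊ ℤ`. -/
abbrev Lamp : Type := Base Y ⋊[shift Y] Multiplicative ℤ

end defs

/-! ### Label preserving permutations of the set of words -/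

section labels

variable {Y : Type} [Group Y]

/-- prefixes are respected, and the labels are left multiplications -/
def Good (f : Equiv.Perm (List Y)) : Prop :=
  f [] = [] ∧ ∀ v : List Y, ∃ g : Y, ∀ x : Y, f (v ++ [x]) = f v ++ [g * x]

theorem Good.one : Good (1 : Equiv.Perm (List Y)) :=
  ⟨rfl, fun v => ⟨1, fun x => by simp⟩⟩

theorem Good.mul {f h : Equiv.Perm (List Y)} (hf : Good f) (hh : Good h) : Good (f * h) := by
  refine ⟨by simp [hf.1, hh.1], fun v => ?_⟩
  obtain ⟨g, hg⟩ := hh.2 v
  obtain ⟨g', hg'⟩ := hf.2 (h v)
  exact ⟨g' * g, fun x => by simp [hg, hg', mul_assoc]⟩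

theorem Good.inv {f : Equiv.Perm (List Y)} (hf : Good f) : Good f⁻¹ := by
  refine ⟨by rw [Equiv.Perm.inv_eq_iff_eq]; exact hf.1.symm, fun v => ?_⟩
  obtain ⟨g, hg⟩ := hf.2 (f⁻¹ v)
  refine ⟨g⁻¹, fun x => ?_⟩
  rw [Equiv.Perm.inv_eq_iff_eq, hg]
  simp

theorem Good.pow {f : Equiv.Perm (List Y)} (hf : Good f) (k : ℕ) : Good (f ^ k) := by
  induction k with
  | zero => simpa using Good.one
  | succ k ih => rw [pow_succ]; exact ih.mul hf

theorem Good.length {f : Equiv.Perm (List Y)} (hf : Good f) (v : List Y) :
    (f v).length = v.length := by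
  induction v using List.reverseRecOn with
  | nil => rw [hf.1]
  | append_singleton v x ih =>
    obtain ⟨g, hg⟩ := hf.2 v
    rw [hg, List.length_append, List.length_append, ih]
    rfl

open Classical in
/-- the label at the vertex `v` -/
noncomputable def label (f : Equiv.Perm (List Y)) (v : List Y) : Y :=
  if h : ∃ g : Y, ∀ x : Y, f (v ++ [x]) = f v ++ [g * x] then h.choose else 1

theorem label_spec {f : Equiv.Perm (List Y)} (hf : Good f) (v : List Y) (x : Y) :
    f (v ++ [x]) = f v ++ [label f v * x] := by
  have h := hf.2 v
  rw [label, dif_pos h]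
  exact h.choose_spec x

theorem label_unique {f : Equiv.Perm (List Y)} (hf : Good f) (v : List Y) (g : Y)
    (h : f (v ++ [1]) = f v ++ [g]) : label f v = g := by
  rw [label_spec hf v 1, List.append_cancel_left_eq] at h
  simpa using h

theorem label_one (v : List Y) : label (1 : Equiv.Perm (List Y)) v = 1 :=
  label_unique Good.one v 1 rfl

theorem label_mul {f h : Equiv.Perm (List Y)} (hf : Good f) (hh : Good h) (v : List Y)
    (hv : h v = v) : label (f * h) v = label f v * label h v := by
  apply label_unique (hf.mul hh)
  rw [Equiv.Perm.mul_apply, label_spec hh, hv, label_spec hf, Equiv.Perm.mul_apply, hv, mul_one]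

omit [Group Y] in
theorem pow_fix {f : Equiv.Perm (List Y)} (v : List Y) (hv : f v = v) (k : ℕ) : (f ^ k) v = v := by
  induction k with
  | zero => rfl
  | succ k ih => rw [pow_succ, Equiv.Perm.mul_apply, hv, ih]

theorem label_pow {f : Equiv.Perm (List Y)} (hf : Good f) (v : List Y) (hv : f v = v) (k : ℕ) :
    label (f ^ k) v = label f v ^ k := by
  induction k with
  | zero => rw [pow_zero, pow_zero, label_one]
  | succ k ih => rw [pow_succ, label_mul (hf.pow k) hf v hv, ih, pow_succ]

theorem label_inv {f : Equiv.Perm (List Y)} (hf : Good f) (v : List Y) (hv : f v = v) :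
    label f⁻¹ v = (label f v)⁻¹ := by
  have h := label_mul hf.inv hf v hv
  rw [inv_mul_cancel, label_one] at h
  exact eq_inv_of_mul_eq_one_left h.symm

/-- a power fixes all words of length `n` -/
theorem exists_pow_fix [Finite Y] {f : Equiv.Perm (List Y)} (hf : Good f) (n : ℕ) :
    ∃ m : ℕ, 0 < m ∧ ∀ v : List Y, v.length = n → (f ^ m) v = v := by
  have hfin : Finite {v : List Y // v.length = n} := (List.finite_length_eq Y n).to_subtype
  have hp : ∀ v : List Y, v.length = n ↔ (f v).length = n := fun v => by rw [hf.length]
  let p : Equiv.Perm {v : List Y // v.length = n} := f.subtypePerm (fun v => (hp v).symm)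
  refine ⟨orderOf p, orderOf_pos p, fun v hv => ?_⟩
  have h1 : (p ^ orderOf p) ⟨v, hv⟩ = ⟨v, hv⟩ := by rw [pow_orderOf_eq_one]; rfl
  have h2 : ∀ k : ℕ, (((p ^ k) ⟨v, hv⟩ : {v : List Y // v.length = n}) : List Y) = (f ^ k) v := by
    intro k
    induction k with
    | zero => rfl
    | succ k ih =>
      rw [pow_succ', pow_succ', Equiv.Perm.mul_apply, Equiv.Perm.mul_apply, ← ih]
      rfl
  rw [← h2, h1]

end labels

/-! ### The core of the argument -/

section core

variable {Y : Type} [Group Y]

/-- the embedding of `Y` in the coordinate `0` -/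
def emb (y : Y) : Base Y := ⟨(Pi.mulSingle 0 y : ℤ → Y), by
  refine (Set.finite_singleton (0 : ℤ)).subset ?_
  intro k hk
  by_contra h
  exact hk (Pi.mulSingle_eq_of_ne (M := fun _ : ℤ => Y) h y)⟩

theorem emb_mul (y z : Y) : emb (y * z) = emb y * emb z := by
  apply Subtype.ext
  exact Pi.mulSingle_mul (f := fun _ : ℤ => Y) 0 y z

theorem shift_emb (n : ℤ) (hn : n ≠ 0) (y z : Y) :
    shift Y (Multiplicative.ofAdd n) (emb y) * emb z =
      emb z * shift Y (Multiplicative.ofAdd n) (emb y) := by
  apply Subtype.ext
  funext k
  change (Pi.mulSingle 0 y : ℤ → Y) (k - n) * (Pi.mulSingle 0 z : ℤ → Y) k =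
    (Pi.mulSingle 0 z : ℤ → Y) k * (Pi.mulSingle 0 y : ℤ → Y) (k - n)
  by_cases hk : k = 0
  · subst hk
    have : (0 : ℤ) - n ≠ 0 := by simpa using hn
    rw [Pi.mulSingle_eq_of_ne this, one_mul, mul_one]
  · rw [Pi.mulSingle_eq_of_ne hk, one_mul, mul_one]

/-- No group of label preserving permutations is isomorphic to `Y ≀ ℤ`. -/
theorem core [Finite Y] (h2 : 2 ≤ Nat.card Y) (hY : commutator Y = ⊤)
    (H : Subgroup (Equiv.Perm (List Y))) (hH : ∀ f ∈ H, Good f) : ¬ Nonempty (H ≃* Lamp Y) := by
  rintro ⟨e⟩
  -- the shift and the copy of `Y`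
  let s : Lamp Y := SemidirectProduct.inr (Multiplicative.ofAdd 1)
  let al : Equiv.Perm (List Y) := (e.symm s : H)
  let de : Y → Equiv.Perm (List Y) := fun y => (e.symm (SemidirectProduct.inl (emb y)) : H)
  have gal : Good al := hH _ (e.symm s).2
  have gde : ∀ y, Good (de y) := fun y => hH _ (e.symm (SemidirectProduct.inl (emb y))).2
  have demul : ∀ y z, de (y * z) = de y * de z := by
    intro y z
    change ((e.symm (SemidirectProduct.inl (emb (y * z))) : H) : Equiv.Perm (List Y)) = _
    rw [emb_mul, map_mul, map_mul]
    rfl
  have hcomm : ∀ (k : ℕ), 0 < k → ∀ y z,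
      (al ^ k * de y * (al ^ k)⁻¹) * de z = de z * (al ^ k * de y * (al ^ k)⁻¹) := by
    intro k hk y z
    have h1 : (s ^ k * SemidirectProduct.inl (emb y) * (s ^ k)⁻¹) * SemidirectProduct.inl (emb z) =
        SemidirectProduct.inl (emb z) * (s ^ k * SemidirectProduct.inl (emb y) * (s ^ k)⁻¹) := by
      have h3 : s ^ k = SemidirectProduct.inr (Multiplicative.ofAdd (k : ℤ)) := by
        rw [← map_pow]
        congr 1
        rw [← ofAdd_nsmul]
        simp
      rw [h3, ← map_inv, ← SemidirectProduct.inl_aut, ← map_mul, ← map_mul,
        shift_emb (k : ℤ) (by exact_mod_cast hk.ne')]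
    have h4 := congrArg (fun g : Lamp Y => ((e.symm g : H) : Equiv.Perm (List Y))) h1
    simpa using h4
  -- the main induction
  have main : ∀ n : ℕ, ∀ (y : Y) (v : List Y), v.length = n → de y v = v := by
    intro n
    induction n with
    | zero =>
      intro y v hv
      rw [List.length_eq_zero_iff] at hv
      rw [hv]
      exact (gde y).1
    | succ n ih =>
      intro y v hv
      obtain ⟨m, hm, hfix⟩ := exists_pow_fix gal n
      -- labels at a word of length `n` are trivial
      have key : ∀ u : List Y, u.length = n → ∀ y, label (de y) u = 1 := by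
        intro u hu
        let la : Y →* Y := MonoidHom.mk' (fun y => label (de y) u) (by
          intro y z
          rw [demul, label_mul (gde y) (gde z) u (ih z u hu)])
        have hab : ∀ y z, la y * la z = la z * la y := by
          intro y z
          let be : Equiv.Perm (List Y) := al ^ (m * Nat.card Y)
          have hbe : be u = u := by
            change (al ^ (m * Nat.card Y)) u = u
            rw [pow_mul]
            exact pow_fix u (hfix u hu) _
          have gbe : Good be := gal.pow _
          have lbe : label be u = 1 := by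
            change label (al ^ (m * Nat.card Y)) u = 1
            rw [pow_mul, label_pow (gal.pow m) u (hfix u hu), pow_card_eq_one']
          have hbei : be⁻¹ u = u := by
            rw [Equiv.Perm.inv_eq_iff_eq]
            exact hbe.symm
          have hk : 0 < m * Nat.card Y := Nat.mul_pos hm (by omega)
          have h5 := hcomm (m * Nat.card Y) hk y z
          change (be * de y * be⁻¹) * de z = de z * (be * de y * be⁻¹) at h5
          have h6 : label (be * de y * be⁻¹) u = la y := by
            rw [label_mul (gbe.mul (gde y)) gbe.inv u hbei, label_mul gbe (gde y) u (ih y u hu),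
              label_inv gbe u hbe, lbe, inv_one, one_mul, mul_one]
            rfl
          have h7 : (be * de y * be⁻¹) u = u := by
            rw [Equiv.Perm.mul_apply, Equiv.Perm.mul_apply, hbei, ih y u hu, hbe]
          have h8 := congrArg (fun g => label g u) h5
          rw [label_mul ((gbe.mul (gde y)).mul gbe.inv) (gde z) u (ih z u hu),
            label_mul (gde z) ((gbe.mul (gde y)).mul gbe.inv) u h7, h6] at h8
          exact h8
        have hker : commutator Y ≤ la.ker := by
          rw [commutator_def, Subgroup.commutator_le]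
          intro y _ z _
          rw [MonoidHom.mem_ker, map_commutatorElement, commutatorElement_eq_one_iff_mul_comm]
          exact hab y z
        intro y
        have : y ∈ la.ker := hker (by rw [hY]; trivial)
        exact this
      obtain ⟨u, x, rfl⟩ : ∃ u x, v = u ++ [x] := by
        rcases List.eq_nil_or_concat v with h | ⟨u, x, h⟩
        · rw [h] at hv
          simp at hv
        · exact ⟨u, x, by simpa using h⟩
      have hu : u.length = n := by simpa using hv
      rw [label_spec (gde y), key u hu, ih y u hu, one_mul]
  -- conclusion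
  have hone : ∀ y, de y = 1 := by
    intro y
    ext1 v
    exact main v.length y v rfl
  have htriv : ∀ y : Y, y = 1 := by
    intro y
    have h1 : e.symm (SemidirectProduct.inl (emb y)) = 1 := Subtype.ext (hone y)
    have h3 : (SemidirectProduct.inl (emb y) : Lamp Y) = 1 := by
      rw [MulEquiv.symm_apply_eq, map_one] at h1
      exact h1
    have h4 : emb y = 1 := by
      apply SemidirectProduct.inl_injective (φ := shift Y)
      rw [h3, map_one]
    have h5 := congrFun (congrArg Subtype.val h4) 0
    simpa [emb] using h5
  have hs : Subsingleton Y := ⟨fun y z => by rw [htriv y, htriv z]⟩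
  have : Nat.card Y ≤ 1 := Finite.card_le_one_iff_subsingleton.mpr hs
  omega

end core

/-! ### Conclusion -/

section concl

variable {Y : Type} [Group Y]

theorem run_append (M : Automaton Y) : ∀ (v : List Y) (q : M.Q), ∃ g : Y, ∀ x : Y,
    M.run q (v ++ [x]) = M.run q v ++ [g * x]
  | [], q => ⟨M.lab q, fun _ => rfl⟩
  | y :: v, q => by
    obtain ⟨g, hg⟩ := run_append M v (M.step q y)
    exact ⟨g, fun x => by simp [Automaton.run, hg]⟩

theorem good_of_mem (f : Equiv.Perm (List Y)) (hf : (f : List Y → List Y) ∈ WY Y) : Good f := by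
  obtain ⟨M, q, h⟩ := hf
  constructor
  · rw [h]
    rfl
  · intro v
    obtain ⟨g, hg⟩ := run_append M v q
    exact ⟨g, fun x => by rw [h]; exact hg x⟩

theorem aMap_append : ∀ (v : List Y) (i : Y), ∃ g : Y, ∀ x : Y,
    aMap i (v ++ [x]) = aMap i v ++ [g * x]
  | [], i => ⟨i, fun _ => rfl⟩
  | y :: v, i => by
    obtain ⟨g, hg⟩ := aMap_append v (y⁻¹ * i)
    exact ⟨g, fun x => by simp [aMap, hg]⟩

theorem good_of_mem_GY (f : Equiv.Perm (List Y)) (hf : f ∈ GY Y) : Good f := by
  induction hf using Subgroup.closure_induction with
  | mem x hx =>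
    obtain ⟨i, rfl⟩ := hx
    exact ⟨rfl, fun v => aMap_append v i⟩
  | one => exact Good.one
  | mul x y _ _ hx hy => exact hx.mul hy
  | inv x _ hx => exact hx.inv

end concl

/-- For every finite perfect group `Y` with at least two elements, the automaton group `𝔾_Y` is not
isomorphic to the lamplighter group `Y ≀ ℤ`, and the finite state wreath power `W_Y` contains no
subgroup isomorphic to `Y ≀ ℤ`; and such groups `Y` exist. -/
theorem result :
    (∀ (Y : Type) [Group Y] [Finite Y], 2 ≤ Nat.card Y → commutator Y = ⊤ →
      (¬ Nonempty (GY Y ≃* Lamp Y)) ∧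
      ¬ ∃ H : Subgroup (Equiv.Perm (List Y)),
        (∀ f ∈ H, (f : List Y → List Y) ∈ WY Y) ∧ Nonempty (H ≃* Lamp Y)) ∧
    ∃ (Y : Type) (_ : Group Y) (_ : Finite Y), 2 ≤ Nat.card Y ∧ commutator Y = ⊤ := by
  refine ⟨?_, alternatingGroup (Fin 5), inferInstance, inferInstance, ?_, ?_⟩
  · intro Y _ _ h2 hY
    refine ⟨core h2 hY (GY Y) good_of_mem_GY, ?_⟩
    rintro ⟨H, hH, hiso⟩
    exact core h2 hY H (fun f hf => good_of_mem f (hH f hf)) hiso
  · have h := nat_card_alternatingGroup (α := Fin 5)
    rw [h]
    simp [Nat.factorial]
  · exact commutator_alternatingGroup_eq_top (by simp)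

end Pool.Agent.Results.MP_e17fb9_al.PerfectAlphabet
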